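import Pool.Agent.Work.MP_602313_nt.Bd.B11
import Pool.Agent.Work.MP_602313_nt.Bd.B12

/-!
MP_602313_nt: the measures of the final statement are probability measures, the Hecke operator is
unique, the slopes of the `p`-oldforms of weight `k` lie in `[0, k-1]`.
-/

open scoped MatrixGroups ModularForm UpperHalfPlane Polynomial ENNReal
open CongruenceSubgroup UpperHalfPlane MeasureTheory Filter

noncomputable section

namespace Gou

theorem m_hecke_unique {N : ℕ} {k : ℤ} {l : ℕ} (hl : 0 < l) {T T' : SN N k →ₗ[ℂ] SN N k}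
    (h : IsHecke N k l T) (h' : IsHecke N k l T') : T = T' := by
  refine LinearMap.ext fun f => ?_
  refine DFunLike.ext _ _ fun z => ?_
  rw [h hl f z, h' hl f z]

theorem m_heckeOp {N : ℕ} (h : HeckeExists N) (k : ℤ) {l : ℕ} (hl : l.Prime) (hlN : ¬ l ∣ N) :
    (∃! T : SN N k →ₗ[ℂ] SN N k, IsHecke N k l T) ∧ IsHecke N k l (heckeOp N k l) := by
  have hex := h k l hl hlN
  have e : heckeOp N k l = hex.choose := by
    unfold heckeOp
    rw [dif_pos hex]
  refine ⟨⟨hex.choose, hex.choose_spec, fun T hT => m_hecke_unique hl.pos hT hex.choose_spec⟩, ?_⟩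
  rw [e]
  exact hex.choose_spec

theorem m_card_roots (p : ℕ) [Fact p.Prime] (b c : PadicAlgCl p) :
    Multiset.card (Polynomial.X ^ 2 - Polynomial.C b * Polynomial.X
      + Polynomial.C c : (PadicAlgCl p)[X]).roots = 2 := by
  rw [IsAlgClosed.card_roots_eq_natDegree]
  compute_degree!

theorem m_card_old (p : ℕ) [Fact p.Prime] (N k : ℕ) (ι : ℂ ≃+* PadicAlgCl p) (h : FinDim N) :
    Multiset.card (oldSlopes p N k ι) = 2 * Module.finrank ℂ (SN N k) := by
  unfold oldSlopes
  rw [Multiset.card_bind]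
  simp only [Function.comp_def, Multiset.card_map, m_card_roots]
  rw [Multiset.map_const', Multiset.sum_replicate, E6.card_heckeEigs N h, smul_eq_mul, mul_comm]

theorem m_dirac_univ (f : ℝ → ℝ) (m : Multiset ℝ) :
    ((m.map fun s => Measure.dirac (f s)).sum) Set.univ = (Multiset.card m : ℝ≥0∞) := by
  induction m using Multiset.induction_on with
  | empty => simp
  | cons a m ih =>
    rw [Multiset.map_cons, Multiset.sum_cons, Measure.add_apply, ih, Multiset.card_cons]
    simp [add_comm]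

theorem m_muK_prob (p : ℕ) [Fact p.Prime] (N k : ℕ) (ι : ℂ ≃+* PadicAlgCl p) (h : FinDim N)
    (hk : 0 < Module.finrank ℂ (SN N k)) : IsProbabilityMeasure (muK p N k ι) := by
  constructor
  unfold muK
  rw [Measure.smul_apply, m_dirac_univ (fun s => s / ((k : ℝ) - 1)), smul_eq_mul]
  apply ENNReal.inv_mul_cancel
  · rw [m_card_old p N k ι h]
    have : 2 * Module.finrank ℂ (SN N k) ≠ 0 := by omega
    exact_mod_cast this
  · exact ENNReal.natCast_ne_top _

theorem m_nuP_prob (p : ℕ) (hp : 2 ≤ p) : IsProbabilityMeasure (nuP p) := by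
  constructor
  unfold nuP
  have hp' : (2 : ℝ) ≤ p := by exact_mod_cast hp
  have h1 : (0 : ℝ) < (p : ℝ) + 1 := by linarith
  have hlt : 1 / ((p : ℝ) + 1) < (p : ℝ) / ((p : ℝ) + 1) :=
    div_lt_div_of_pos_right (by linarith) h1
  rw [Measure.smul_apply, Measure.restrict_apply_univ, measure_union ?_ measurableSet_Icc,
    Real.volume_Icc, Real.volume_Icc, smul_eq_mul, ← ENNReal.ofReal_add, ← ENNReal.ofReal_mul]
  · have : ((p : ℝ) + 1) / 2 * (1 / ((p : ℝ) + 1) - 0 + (1 - (p : ℝ) / ((p : ℝ) + 1))) = 1 := by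
      field_simp
      ring
    rw [this, ENNReal.ofReal_one]
  · positivity
  · simp; positivity
  · rw [sub_nonneg, div_le_one h1]; linarith
  · rw [Set.disjoint_left]
    rintro x ⟨_, hx⟩ ⟨hx', _⟩
    linarith

theorem m_slopes_mem {p N : ℕ} [Fact p.Prime] (hpN : ¬ p ∣ N) (h1 : FinDim N)
    (h2 : HeckeExists N) (h3 : CoordExists p N) (h4 : D17Root) (h5 : D20Two) (h6 : ERoots)
    (h0 : E0NA) (h8 : EOdd N) :
    ∀ᶠ k : ℕ in atTop, ∀ (ι : ℂ ≃+* PadicAlgCl p), ∀ s ∈ oldSlopes p N k ι,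
      0 ≤ s ∧ s ≤ (k : ℝ) - 1 := by
  obtain ⟨C, n0, hC⟩ := h3
  have hpp : p.Prime := Fact.out
  filter_upwards [eventually_ge_atTop (n0 + 2)] with k hk ι s hs
  obtain ⟨n, rfl⟩ : ∃ n, k = n + 2 := ⟨k - 2, by omega⟩
  by_cases hev : Even (n + 2)
  · have hn : n0 ≤ n := by omega
    have hevn : Even n := by
      rcases hev with ⟨r, hr⟩
      exact ⟨r - 1, by omega⟩
    obtain ⟨D⟩ := hC n hn hevn
    have hcast : (((n + 2 : ℕ) : ℕ) : ℤ) = (n : ℤ) + 2 := by push_cast; ring
    unfold oldSlopes at hs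
    rw [Multiset.mem_bind] at hs
    obtain ⟨a, ha, hs⟩ := hs
    have hle : avI ι a ≤ 1 := by
      rw [hcast] at ha
      exact E6.mem_le_one hpN h1 h2 D h4 h5 h0 ι a ha
    rw [h6 p ι a (n + 2) (by omega) hle] at hs
    have hκ1 : (1 : ℝ) ≤ ((n + 2 : ℕ) : ℝ) - 1 := by
      push_cast
      have : (0 : ℝ) ≤ n := Nat.cast_nonneg n
      linarith
    have hw := E6.ws_facts p hpp (avI ι) a hle ((((n + 2 : ℕ) : ℝ) - 1) / 2) (by linarith)
    simp only [Multiset.insert_eq_cons, Multiset.mem_cons, Multiset.mem_singleton] at hs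
    rcases hs with rfl | rfl
    · exact ⟨hw.1, by linarith [hw.2.1]⟩
    · exact ⟨by linarith [hw.2.1], by linarith [hw.1]⟩
  · exfalso
    have h := m_card_old p N (n + 2) ι h1
    rw [h8 (n + 2) hev, mul_zero, Multiset.card_eq_zero] at h
    rw [h] at hs
    simp at hs

end Gou
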