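import Pool.Agent.Work.MP_602313_nt.Bd.B17
import Pool.Agent.Work.MP_602313_nt.Bd.B12

/-!
MP_602313_nt: the main theorem.
-/

noncomputable section

namespace Gou

/-- Coordinates. -/
theorem m_coord {p N : ℕ} [hpf : Fact p.Prime]
    (hN : N ≠ 0) (hp : ¬ p ∣ N) : CoordExists p N :=
  e1 (e1a N) e1b (e1c N) (m_bBasis N hN) (m_bRank N hN)
    (fun n l hl hlN φ hφ => m_bHecke N n l ℤ hl hlN φ hφ)
    (fun n l l' hl hl' hlN hlN' φ hφ => m_bComm N n l l' ℤ hl hl' hlN hlN' φ hφ)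
    (m_bHodge p N hN hp (prfA_DualStep p))
    (m_bDeep p N hN hp (prfA_DualStep p) (prfA_DeepBound p))
    (m_bImage p N hN hp) (m_bNorm N hN) (c2Eich N hN) hpf.out hp

theorem m_all {p N : ℕ} [hpf : Fact p.Prime]
    (hN : N ≠ 0) (hp : ¬ p ∣ N) : EUp p N ∧ ELow p N ∧ EDim N ∧ EInt p N :=
  m_final hN hp (m_coord hN hp) (c2Dim N hN (c1_finDim hN)) (c1_finDim hN)
    (c1_heckeExists hN) (c1_heckeComm hN) (c2Pet N hN) (c1_charSep hN) (c1_multBound hN)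

theorem m_conclusion {p N : ℕ} [hpf : Fact p.Prime]
    (hN : N ≠ 0) (hp : ¬ p ∣ N) : Conclusion p N :=
  have h := m_all (p := p) hN hp
  e9 h.1 h.2.1 h.2.2.1 h.2.2.2 e7 (e8 N) hN

end Gou
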