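import Mathlib

/-!
The definitions used in the final statement of MP_602313_nt (Gouvea's conjecture on the slopes of
`p`-oldforms).
-/

open scoped MatrixGroups ModularForm UpperHalfPlane Polynomial ENNReal
open CongruenceSubgroup UpperHalfPlane MeasureTheory

noncomputable section

namespace Gou

/-! ### Cusp forms -/

/-- The point `(z + j) / l` of the upper half plane. -/
def divPt (l : ℕ) (j : ℕ) (hl : 0 < l) (z : ℍ) : ℍ :=
  ⟨((z : ℂ) + j) / l, by
    have h : (((z : ℂ) + j) / l).im = z.im / l := by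
      simp [Complex.div_natCast_im]
    have : 0 < z.im / l := div_pos z.im_pos (by exact_mod_cast hl)
    rw [h]; exact this⟩

/-- The point `l z` of the upper half plane. -/
def mulPt (l : ℕ) (hl : 0 < l) (z : ℍ) : ℍ :=
  ⟨(l : ℂ) * z, by
    have h : ((l : ℂ) * z).im = l * z.im := by simp
    rw [h]; exact mul_pos (by exact_mod_cast hl) z.im_pos⟩

/-- `S_k(Gamma0(N))`. -/
abbrev SN (N : ℕ) (k : ℤ) := CuspForm (Gamma0 N) k

/-- `T` is the Hecke operator `T_l` on `S_k(Gamma0 N)`, `l` a prime not dividing `N`: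
`(T f)(z) = l^(k-1) f(l z) + l^(-1) sum_{j < l} f((z + j) / l)`. -/
def IsHecke (N : ℕ) (k : ℤ) (l : ℕ) (T : SN N k →ₗ[ℂ] SN N k) : Prop :=
  ∀ (hl : 0 < l) (f : SN N k) (z : ℍ),
    T f z = (l : ℂ) ^ (k - 1) * f (mulPt l hl z) + (l : ℂ)⁻¹ * ∑ j ∈ Finset.range l, f (divPt l j hl z)

/-- The Hecke operator `T_l` on `S_k(Gamma0 N)` (`l` a prime not dividing `N`): the linear map with
`(T f)(z) = l^(k-1) f(l z) + l^(-1) sum_{j < l} f((z + j) / l)`; it exists and is unique, see the
theorem. -/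
def heckeOp (N : ℕ) (k : ℤ) (l : ℕ) : SN N k →ₗ[ℂ] SN N k := by
  classical
  exact if h : ∃ T : SN N k →ₗ[ℂ] SN N k, IsHecke N k l T then h.choose else 0

/-- The eigenvalues of `T_l` on `S_k(Gamma0 N)` with algebraic multiplicity: the roots of the
characteristic polynomial (the space is finite dimensional, see the theorem). -/
def heckeEigs (N : ℕ) (k : ℤ) (l : ℕ) : Multiset ℂ := by
  classical
  exact if h : Module.Finite ℂ (SN N k) then (haveI := h; (heckeOp N k l).charpoly.roots) else 0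

/-- The `p`-adic valuation on the algebraic closure of `ℚ_p`, `v(p) = 1` (used for nonzero
elements only). -/
def vAlg (p : ℕ) [Fact p.Prime] (x : PadicAlgCl p) : ℝ := -Real.logb p ‖x‖

/-- The slopes of the `p`-oldforms of weight `k` and level `Gamma0(N p)`: for every eigenvalue `a`
of `T_p` on `S_k(Gamma0 N)`, counted with multiplicity, the valuations of the two roots of
`x^2 - a x + p^(k-1)`; complex numbers are embedded in the algebraic closure of `ℚ_p` by `ι`. -/
def oldSlopes (p : ℕ) [Fact p.Prime] (N k : ℕ) (ι : ℂ ≃+* PadicAlgCl p) : Multiset ℝ :=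
  (heckeEigs N k p).bind fun a =>
    ((Polynomial.X ^ 2 - Polynomial.C (ι a) * Polynomial.X
      + Polynomial.C ((p : PadicAlgCl p) ^ (k - 1)) : (PadicAlgCl p)[X]).roots).map (vAlg p)

/-- The measure `μ_k`: the normalised sum of point masses at `s / (k-1)`, `s` the slopes of the
`p`-oldforms of weight `k`. -/
def muK (p : ℕ) [Fact p.Prime] (N k : ℕ) (ι : ℂ ≃+* PadicAlgCl p) : Measure ℝ :=
  ((Multiset.card (oldSlopes p N k ι) : ℝ≥0∞)⁻¹) •
    ((oldSlopes p N k ι).map fun s => Measure.dirac (s / ((k : ℝ) - 1))).sum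

/-- The measure `ν_p` with density `(p+1)/2` on `[0, 1/(p+1)] ∪ [p/(p+1), 1]`. -/
def nuP (p : ℕ) : Measure ℝ :=
  ENNReal.ofReal (((p : ℝ) + 1) / 2) •
    (volume.restrict (Set.Icc 0 (1 / ((p : ℝ) + 1)) ∪ Set.Icc ((p : ℝ) / ((p : ℝ) + 1)) 1))

end Gou
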